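import Mathlib
import Pool.Agent.H958.RO.Stm

/-!
# MONCARD: the number of eventually monotone sequences
-/

set_option autoImplicit false

namespace Pool.Agent.H935.RO.MonCard

open Finset
open scoped Classical
open Pool.Agent.H958.RO

/-- sequences which are increasing from the index `s` on -/
noncomputable def MI (n s l : ℕ) : Finset (Fin (s + l + 1) → Fin n) :=
  univ.filter (fun w => ∀ i j : Fin (s + l + 1), s ≤ (i : ℕ) → i < j → w i < w j)

/-- sequences which are decreasing from the index `s` on -/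
noncomputable def MD (n s l : ℕ) : Finset (Fin (s + l + 1) → Fin n) :=
  univ.filter (fun w => ∀ i j : Fin (s + l + 1), s ≤ (i : ℕ) → i < j → w j < w i)

theorem card_MI (n s l : ℕ) : (MI n s l).card ≤ n ^ s * n.choose (l + 1) := by
  have ht : ((univ : Finset (Fin s → Fin n)) ×ˢ
      (powersetCard (l + 1) (univ : Finset (Fin n)))).card = n ^ s * n.choose (l + 1) := by
    rw [card_product, card_powersetCard, card_univ, card_univ, Fintype.card_fun, Fintype.card_fin,
      Fintype.card_fin]
  rw [← ht]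
  have hmono : ∀ w ∈ MI n s l, StrictMono fun i : Fin (l + 1) =>
      w (⟨s + i, by omega⟩ : Fin (s + l + 1)) := by
    intro w hw i j hij
    have h := (mem_filter.1 hw).2
    refine h _ _ (Nat.le_add_right _ _) ?_
    rw [Fin.lt_def] at hij ⊢
    show s + (i : ℕ) < s + (j : ℕ)
    omega
  refine Finset.card_le_card_of_injOn (fun w => ((fun i : Fin s => w (Fin.castLE (by omega) i)),
    univ.image (fun i : Fin (l + 1) => w (⟨s + i, by omega⟩ : Fin (s + l + 1))))) ?_ ?_
  · intro w hw
    have h1 := hmono w (Finset.mem_coe.1 hw)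
    rw [Finset.mem_coe, mem_product, mem_powersetCard]
    refine ⟨mem_univ _, subset_univ _, ?_⟩
    show (univ.image (fun i : Fin (l + 1) => w (⟨s + i, by omega⟩ : Fin (s + l + 1)))).card = l + 1
    rw [Finset.card_image_of_injective _ h1.injective, card_univ, Fintype.card_fin]
  · intro w hw w' hw' h
    have h1 := hmono w (Finset.mem_coe.1 hw)
    have h2 := hmono w' (Finset.mem_coe.1 hw')
    have h3 := (Prod.mk.inj h).1
    have h4 := (Prod.mk.inj h).2
    have h5 : (fun i : Fin (l + 1) => w (⟨s + i, by omega⟩ : Fin (s + l + 1))) =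
        fun i : Fin (l + 1) => w' (⟨s + i, by omega⟩ : Fin (s + l + 1)) := by
      rw [← StrictMono.range_inj h1 h2]
      have h6 := congrArg (fun t : Finset (Fin n) => (t : Set (Fin n))) h4
      simpa only [coe_image, coe_univ, Set.image_univ] using h6
    funext i
    by_cases hi : (i : ℕ) < s
    · exact congrFun h3 ⟨i, hi⟩
    · have h7 := congrFun h5 ⟨(i : ℕ) - s, by omega⟩
      have h8 : (⟨s + ((i : ℕ) - s), by omega⟩ : Fin (s + l + 1)) = i :=
        Fin.ext (by show s + ((i : ℕ) - s) = i; omega)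
      dsimp only at h7
      rwa [h8] at h7

theorem card_MD (n s l : ℕ) : (MD n s l).card ≤ (MI n s l).card := by
  refine Finset.card_le_card_of_injOn (fun w i => Fin.rev (w i)) ?_ ?_
  · intro w hw
    have h := (mem_filter.1 (Finset.mem_coe.1 hw)).2
    refine Finset.mem_coe.2 (mem_filter.2 ⟨mem_univ _, fun i j hi hij => ?_⟩)
    exact Fin.rev_lt_rev.2 (h i j hi hij)
  · intro w _ w' _ h
    funext i
    exact Fin.rev_injective (congrFun h i)

theorem main : S_MONCARD := by
  intro n s l
  have h1 : Mon n s l ⊆ MI n s l ∪ MD n s l := by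
    intro w hw
    rcases (mem_filter.1 hw).2.2 with h | h
    · exact mem_union_left _ (mem_filter.2 ⟨mem_univ _, h⟩)
    · exact mem_union_right _ (mem_filter.2 ⟨mem_univ _, h⟩)
  have h2 : (Mon n s l).card ≤ 2 * (n ^ s * n.choose (l + 1)) := by
    have h3 := (card_le_card h1).trans (card_union_le _ _)
    have h4 := card_MD n s l
    have h5 := card_MI n s l
    omega
  have h6 : ((Mon n s l).card : ℝ) ≤ 2 * ((n : ℝ) ^ s * (n.choose (l + 1) : ℝ)) := by
    exact_mod_cast h2
  have h7 : (n.choose (l + 1) : ℝ) ≤ (n : ℝ) ^ (l + 1) / ((l + 1).factorial : ℝ) :=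
    Nat.choose_le_pow_div (l + 1) n
  calc ((Mon n s l).card : ℝ) ≤ 2 * ((n : ℝ) ^ s * (n.choose (l + 1) : ℝ)) := h6
    _ ≤ 2 * ((n : ℝ) ^ s * ((n : ℝ) ^ (l + 1) / ((l + 1).factorial : ℝ))) := by gcongr
    _ = 2 / ((l + 1).factorial : ℝ) * (n : ℝ) ^ (s + l + 1) := by
        rw [add_assoc s l 1, pow_add (n : ℝ) s (l + 1)]
        ring

end Pool.Agent.H935.RO.MonCard
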